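import Pool.Agent.W544.PG.Defs

/-!
# Conditional expectation onto a star-closed algebra of matrices
-/

open Matrix Finset Module
open scoped ComplexOrder

namespace Pool.Agent.W202.PG

open Pool.Agent.W544.PG

variable {ι : Type} [Fintype ι] [DecidableEq ι]

/-- the functional `s ↦ trace (X s)` on `S` -/
noncomputable def phi (S : Submodule ℂ (Matrix ι ι ℂ)) : Matrix ι ι ℂ →ₗ[ℂ] Module.Dual ℂ S where
  toFun X :=
    { toFun := fun s => (X * (s : Matrix ι ι ℂ)).trace
      map_add' := fun s t => by simp [mul_add]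
      map_smul' := fun c s => by simp }
  map_add' X Y := by ext s; simp [add_mul]
  map_smul' c X := by ext s; simp

theorem phi_apply (S : Submodule ℂ (Matrix ι ι ℂ)) (X : Matrix ι ι ℂ) (s : S) :
    phi S X s = (X * (s : Matrix ι ι ℂ)).trace := rfl

theorem eq_zero_of_trace {S : Submodule ℂ (Matrix ι ι ℂ)} (hst : ∀ a ∈ S, aᴴ ∈ S)
    {a : Matrix ι ι ℂ} (ha : a ∈ S) (h : ∀ s ∈ S, (a * s).trace = 0) : a = 0 := by
  have h1 := h _ (hst a ha)
  exact Matrix.trace_mul_conjTranspose_self_eq_zero_iff.1 h1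

theorem exp : S_exp := by
  intro ι _ _ S hS
  obtain ⟨_, hmul, hst⟩ := hS
  have inj : Function.Injective ((phi S) ∘ₗ S.subtype) := by
    rw [← LinearMap.ker_eq_bot, LinearMap.ker_eq_bot']
    intro a ha
    have h2 : (a : Matrix ι ι ℂ) = 0 := by
      refine eq_zero_of_trace hst a.2 fun s hs => ?_
      have h3 := LinearMap.congr_fun ha ⟨s, hs⟩
      exact h3
    exact Subtype.ext h2
  have hdim : finrank ℂ S = finrank ℂ (Module.Dual ℂ S) := (Subspace.dual_finrank_eq).symm
  let e := LinearMap.linearEquivOfInjective ((phi S) ∘ₗ S.subtype) inj hdim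
  have he : ∀ a : S, e a = phi S (a : Matrix ι ι ℂ) := fun a => rfl
  let E : Matrix ι ι ℂ →ₗ[ℂ] Matrix ι ι ℂ := S.subtype ∘ₗ (e.symm : Module.Dual ℂ S →ₗ[ℂ] S) ∘ₗ phi S
  have hE : ∀ X, E X = ((e.symm (phi S X) : S) : Matrix ι ι ℂ) := fun X => rfl
  have hmem : ∀ X, E X ∈ S := fun X => (e.symm (phi S X)).2
  have htr : ∀ X, ∀ s ∈ S, (E X * s).trace = (X * s).trace := by
    intro X s hs
    have h1 : e (e.symm (phi S X)) = phi S X := e.apply_symm_apply _
    rw [he] at h1
    have h2 := LinearMap.congr_fun h1 ⟨s, hs⟩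
    rw [phi_apply, phi_apply] at h2
    rw [hE]
    exact h2
  have huniq : ∀ a ∈ S, ∀ b ∈ S, (∀ s ∈ S, (a * s).trace = (b * s).trace) → a = b := by
    intro a ha b hb h
    have h1 : a - b = 0 := by
      refine eq_zero_of_trace hst (S.sub_mem ha hb) fun s hs => ?_
      rw [sub_mul, trace_sub, h s hs, sub_self]
    exact sub_eq_zero.1 h1
  refine ⟨E, hmem, fun X hX => huniq _ (hmem X) _ hX (htr X), htr, ?_, ?_⟩
  · intro a ha X
    refine huniq _ (hmem _) _ (hmul a ha _ (hmem X)) fun s hs => ?_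
    rw [htr _ s hs, mul_assoc, trace_mul_comm, mul_assoc, ← htr X (s * a) (hmul s hs a ha),
      ← mul_assoc, trace_mul_comm, ← mul_assoc]
  · intro a ha X
    refine huniq _ (hmem _) _ (hmul _ (hmem X) a ha) fun s hs => ?_
    rw [htr _ s hs, mul_assoc, mul_assoc, htr X (a * s) (hmul a ha s hs)]

end Pool.Agent.W202.PG
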